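import Pool.Agent.Helper66_D1.Tool
import Pool.Agent.Helper66_CY.Brk
import Pool.Agent.Helper71_D1.Soc
import Pool.Agent.Helper55_PP.Sur
import Pool.Agent.Helper20_PP.Ibr
import Pool.Agent.Helper94_PP.StmtsKR

/-!
# Squad PP, part D1, module SUD: every irreducible representation of `N_G(P)` over `br_P b` occurs
-/

open scoped BigOperators

set_option linter.unusedSectionVars false

noncomputable section

namespace Pool.Agent.PP.D1.H67

open Pool.Agent.PP Pool.Agent.Helper51_AWC Pool.Agent.Helper79_WRA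

section lift

variable {F : Type} [Field F] {G : Type} [Group G] [Finite G] {P N : Subgroup G} {m : ℕ}
  {κ : N →* Matrix (Fin m) (Fin m) F}

/-- the sum over `N` by way of a system of weights -/
theorem sum_w {X : Type} [AddCommGroup X] [Module F X] [Fintype N] [Fintype P] (hPN : P ≤ N)
    {c : G → F} (hc : IsW N P c) (h : N → X) :
    ∑ n : N, h n = ∑ n : N, c n • ∑ p : P, h (n * ⟨(p : G), hPN p.2⟩) := by
  have h1 : ∀ n : N, ∑ p : P, c ((n : G) * p) = 1 := by
    intro n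
    rw [← finsum_eq_sum_of_fintype]
    exact hc.sum n n.2
  have h2 : ∀ n : N, ∑ p : P, c ((n : G) * (p : G)⁻¹) = 1 := by
    intro n
    rw [← h1 n]
    refine Fintype.sum_equiv (Equiv.inv P) _ _ fun p => ?_
    rw [Equiv.inv_apply, Subgroup.coe_inv]
  calc ∑ n : N, h n = ∑ n : N, (∑ p : P, c ((n : G) * (p : G)⁻¹)) • h n := by
        refine Finset.sum_congr rfl fun n _ => ?_
        rw [h2 n, one_smul]
    _ = ∑ n : N, ∑ p : P, c ((n : G) * (p : G)⁻¹) • h n := by
        refine Finset.sum_congr rfl fun n _ => ?_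
        rw [Finset.sum_smul]
    _ = ∑ p : P, ∑ n : N, c ((n : G) * (p : G)⁻¹) • h n := Finset.sum_comm
    _ = ∑ p : P, ∑ n : N, c (n : G) • h (n * ⟨(p : G), hPN p.2⟩) := by
        refine Finset.sum_congr rfl fun p _ => ?_
        rw [← Equiv.sum_comp (Equiv.mulRight (⟨(p : G), hPN p.2⟩ : N))]
        refine Finset.sum_congr rfl fun n _ => ?_
        rw [Equiv.coe_mulRight, Subgroup.coe_mul, mul_inv_cancel_right]
    _ = ∑ n : N, ∑ p : P, c (n : G) • h (n * ⟨(p : G), hPN p.2⟩) := Finset.sum_comm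
    _ = ∑ n : N, c n • ∑ p : P, h (n * ⟨(p : G), hPN p.2⟩) := by
        refine Finset.sum_congr rfl fun n _ => ?_
        rw [Finset.smul_sum]

/-- the averaged lift of an embedding whose image modulo `W` is contained in the norm -/
theorem lift_w (hPN : P ≤ N) (hNP : N ≤ Subgroup.normalizer (P : Set G))
    (hκP : ∀ n : N, (n : G) ∈ P → κ n = 1) {c : G → F} (hc : IsW N P c)
    {φ : Matrix (Fin m) (Fin m) F} (hφ : ∑ᶠ n : N, c n • (κ n * φ * κ n⁻¹) = 1) {V : Type}
    [AddCommGroup V] [Module F V] (ρ : Representation F G V) (ι : (Fin m → F) →ₗ[F] V)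
    (hint : ∀ (n : N) (w : Fin m → F), ι ((κ n).mulVec w) = ρ n (ι w))
    (W : Submodule F V) (hW : ∀ g, ∀ v ∈ W, ρ g v ∈ W)
    (hι : ∀ w, ι w ∈ nrmV ρ P ⊔ W) :
    ∃ s : (Fin m → F) →ₗ[F] V, (∀ (n : N) (w : Fin m → F), s ((κ n).mulVec w) = ρ n (s w)) ∧
      (∀ w, s w ∈ nrmV ρ P) ∧ ∀ w, ι w - s w ∈ W := by
  classical
  have hfP := Fintype.ofFinite P
  have hfN := Fintype.ofFinite N
  rw [finsum_eq_sum_of_fintype] at hφ
  -- a linear lift
  have h0 : ∀ i : Fin m, ∃ u : V, ι (Pi.single i 1) - (∑ p : P, ρ p u) ∈ W := by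
    intro i
    obtain ⟨a, ⟨u, hu⟩, c, hc, hac⟩ := Submodule.mem_sup.1 (hι (Pi.single i 1))
    refine ⟨u, ?_⟩
    rw [finsum_eq_sum_of_fintype, LinearMap.sum_apply] at hu
    rw [hu, ← hac, add_sub_cancel_left]
    exact hc
  choose u hu using h0
  let s0 : (Fin m → F) →ₗ[F] V := (Pi.basisFun F (Fin m)).constr F u
  have hs0 : ∀ w, ι w - (∑ p : P, ρ p (s0 w)) ∈ W := by
    intro w
    have h1 : (W.mkQ ∘ₗ (ι - (∑ p : P, ρ p) ∘ₗ s0)) = 0 := by
      apply (Pi.basisFun F (Fin m)).ext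
      intro i
      rw [LinearMap.zero_apply, LinearMap.comp_apply, Submodule.mkQ_apply,
        Submodule.Quotient.mk_eq_zero, LinearMap.sub_apply, LinearMap.comp_apply,
        Module.Basis.constr_basis, LinearMap.sum_apply, Pi.basisFun_apply]
      exact hu i
    have h2 := LinearMap.congr_fun h1 w
    rw [LinearMap.zero_apply, LinearMap.comp_apply, Submodule.mkQ_apply,
      Submodule.Quotient.mk_eq_zero, LinearMap.sub_apply, LinearMap.comp_apply,
      LinearMap.sum_apply] at h2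
    exact h2
  -- the sum of the conjugates over `N`
  let S : (Fin m → F) →ₗ[F] V := ∑ n : N, ρ n ∘ₗ s0 ∘ₗ Matrix.toLin' (φ * κ n⁻¹)
  have hS : ∀ w, S w = ∑ n : N, ρ n (s0 ((φ * κ n⁻¹).mulVec w)) := by
    intro w
    change (∑ n : N, ρ n ∘ₗ s0 ∘ₗ Matrix.toLin' (φ * κ n⁻¹)) w = _
    rw [LinearMap.sum_apply]
    rfl
  have hSeq : ∀ (n : N) (w : Fin m → F), S ((κ n).mulVec w) = ρ n (S w) := by
    intro n w
    rw [hS, hS, map_sum, ← Equiv.sum_comp (Equiv.mulLeft n)]
    refine Finset.sum_congr rfl fun k _ => ?_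
    rw [Equiv.coe_mulLeft, Matrix.mulVec_mulVec, Matrix.mul_assoc, ← map_mul, mul_inv_rev,
      inv_mul_cancel_right, Subgroup.coe_mul, map_mul, Module.End.mul_apply]
  have hS2 : ∀ w, S w = ∑ n : N, c n • ρ n (∑ p : P, ρ p (s0 ((φ * κ n⁻¹).mulVec w))) := by
    intro w
    rw [hS, sum_w hPN hc]
    refine Finset.sum_congr rfl fun n _ => ?_
    rw [map_sum]
    congr 1
    refine Finset.sum_congr rfl fun p _ => ?_
    rw [mul_inv_rev, map_mul κ, hκP _ (by
      rw [Subgroup.coe_inv]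
      exact inv_mem p.2), one_mul, Subgroup.coe_mul, map_mul ρ, Module.End.mul_apply]
  have hι2 : ∀ w, ι w = ∑ n : N, c n • ρ n (ι ((φ * κ n⁻¹).mulVec w)) := by
    intro w
    have h1 : w = ∑ n : N, c n • (κ n).mulVec ((φ * κ n⁻¹).mulVec w) := by
      calc w = (1 : Matrix (Fin m) (Fin m) F).mulVec w := by rw [Matrix.one_mulVec]
        _ = ∑ n : N, (c n • (κ n * φ * κ n⁻¹)).mulVec w := by
            rw [← hφ, Matrix.sum_mulVec]
        _ = ∑ n : N, c n • (κ n).mulVec ((φ * κ n⁻¹).mulVec w) := by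
            refine Finset.sum_congr rfl fun n _ => ?_
            rw [Matrix.smul_mulVec, Matrix.mulVec_mulVec, Matrix.mul_assoc]
    calc ι w = ι (∑ n : N, c n • (κ n).mulVec ((φ * κ n⁻¹).mulVec w)) := by rw [← h1]
      _ = ∑ n : N, c n • ρ n (ι ((φ * κ n⁻¹).mulVec w)) := by
          rw [map_sum]
          refine Finset.sum_congr rfl fun n _ => ?_
          rw [map_smul, hint]
  refine ⟨S, hSeq, ?_, ?_⟩
  · intro w
    rw [hS2]
    refine Submodule.sum_mem _ fun n _ => Submodule.smul_mem _ _ ?_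
    refine CY66.nrm_stable ρ (hNP n.2) ⟨s0 ((φ * κ n⁻¹).mulVec w), ?_⟩
    rw [finsum_eq_sum_of_fintype, LinearMap.sum_apply]
  · intro w
    rw [hS2, hι2, ← Finset.sum_sub_distrib]
    refine Submodule.sum_mem _ fun n _ => ?_
    rw [← smul_sub, ← map_sub]
    exact Submodule.smul_mem _ _ (hW _ _ (hs0 _))

/-- a representation with `EmbN` has a simple constituent with `EmbN` -/
theorem exists_simple_w (hPN : P ≤ N) (hNP : N ≤ Subgroup.normalizer (P : Set G))
    (hκP : ∀ n : N, (n : G) ∈ P → κ n = 1) {c : G → F} (hc : IsW N P c)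
    {φ : Matrix (Fin m) (Fin m) F} (hφ : ∑ᶠ n : N, c n • (κ n * φ * κ n⁻¹) = 1)
    [IsAlgClosed F] (d : ℕ) :
    ∀ (V : Type) [AddCommGroup V] [Module F V] [FiniteDimensional F V] (ρ : Representation F G V)
    (ι : (Fin m → F) →ₗ[F] V), EmbN P N κ ρ ι → Module.finrank F V = d →
    ∃ (n : ℕ) (σ : G →* Matrix (Fin n) (Fin n) F) (ι' : (Fin m → F) →ₗ[F] (Fin n → F)), IsIrr σ ∧
      EmbN P N κ (mrep σ) ι' := by
  classical
  have hfP := Fintype.ofFinite P
  induction d using Nat.strong_induction_on with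
  | _ d ih =>
  intro V _ _ _ ρ ι hι hd
  by_cases hs : ∀ W : Submodule F V, (∀ g, ∀ v ∈ W, ρ g v ∈ W) → W = ⊥ ∨ W = ⊤
  · have hnt : Nontrivial V := by
      obtain ⟨w, hw⟩ := hι.nt
      refine ⟨ι w, 0, fun h => hw ?_⟩
      rw [h]
      exact zero_mem _
    obtain ⟨n, σ, e, hσ, he⟩ := H55.irr_of_simple ρ hs
    refine ⟨n, σ, e.toLinearMap ∘ₗ ι, hσ, ?_, ?_⟩
    · intro k w
      rw [LinearMap.comp_apply, LinearMap.comp_apply, hι.int]
      exact he k (ι w)
    · obtain ⟨w, hw⟩ := hι.nt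
      refine ⟨w, fun hmem => hw ?_⟩
      obtain ⟨y, hy⟩ := hmem
      refine ⟨e.symm y, ?_⟩
      apply e.injective
      rw [finsum_eq_sum_of_fintype, LinearMap.sum_apply] at hy ⊢
      rw [map_sum]
      rw [LinearMap.comp_apply] at hy
      change _ = e.toLinearMap (ι w)
      rw [← hy]
      refine Finset.sum_congr rfl fun p _ => ?_
      rw [he, LinearEquiv.apply_symm_apply]
      rfl
  · push Not at hs
    obtain ⟨W, hW, hW0, hW1⟩ := hs
    by_cases hq : ∀ w, ι w ∈ nrmV ρ P ⊔ W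
    · -- the embedding into `W`
      obtain ⟨s, hs1, hs2, hs3⟩ := lift_w hPN hNP hκP hc hφ ρ ι hι.int W hW hq
      let τ : Representation F G W := ρ.subrepresentation W (fun g v hv => hW g v hv)
      let ι' : (Fin m → F) →ₗ[F] W := (ι - s).codRestrict W hs3
      refine ih (Module.finrank F W) ?_ W τ ι' ⟨?_, ?_⟩ rfl
      · rw [← hd]
        exact Submodule.finrank_lt hW1
      · intro n w
        apply Subtype.ext
        change ι ((κ n).mulVec w) - s ((κ n).mulVec w) = ρ n (ι w - s w)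
        rw [hι.int, hs1, map_sub]
      · obtain ⟨w, hw⟩ := hι.nt
        refine ⟨w, fun hmem => hw ?_⟩
        obtain ⟨y, hy⟩ := hmem
        rw [finsum_eq_sum_of_fintype, LinearMap.sum_apply] at hy
        have h1 : (∑ p : P, ρ p (y : V)) = ι w - s w := by
          have h2 := congrArg Subtype.val hy
          rw [AddSubmonoidClass.coe_finsetSum] at h2
          exact h2
        have h3 : ι w - s w ∈ nrmV ρ P := by
          refine ⟨(y : V), ?_⟩
          rw [finsum_eq_sum_of_fintype, LinearMap.sum_apply, h1]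
        have h4 := Submodule.add_mem _ h3 (hs2 w)
        rwa [sub_add_cancel] at h4
    · -- the embedding into `V / W`
      push Not at hq
      obtain ⟨w, hw⟩ := hq
      let τ : Representation F G (V ⧸ W) := ρ.quotient W (fun g v hv => hW g v hv)
      refine ih (Module.finrank F (V ⧸ W)) ?_ (V ⧸ W) τ (W.mkQ ∘ₗ ι) ⟨?_, w, ?_⟩ rfl
      · have h1 := Submodule.finrank_quotient_add_finrank W
        have h2 : 0 < Module.finrank F W := by
          rw [Nat.pos_iff_ne_zero, Ne, Submodule.finrank_eq_zero]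
          exact hW0
        omega
      · intro n w
        rw [LinearMap.comp_apply, hι.int]
        rfl
      · intro hmem
        apply hw
        obtain ⟨y, hy⟩ := hmem
        obtain ⟨y, rfl⟩ := W.mkQ_surjective y
        rw [finsum_eq_sum_of_fintype, LinearMap.sum_apply] at hy
        have h1 : ∑ p : P, τ p (W.mkQ y) = W.mkQ (∑ p : P, ρ p y) := by
          rw [map_sum]
          rfl
        rw [h1, LinearMap.comp_apply, Submodule.mkQ_apply, Submodule.mkQ_apply,
          Submodule.Quotient.eq] at hy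
        have h2 : ι w = (∑ p : P, ρ p y) + -((∑ p : P, ρ p y) - ι w) := by abel
        rw [h2]
        refine Submodule.add_mem_sup ⟨y, ?_⟩ (W.neg_mem hy)
        rw [finsum_eq_sum_of_fintype, LinearMap.sum_apply]

end lift

section main

variable {F : Type} [Field F] {G : Type} [Group G] [Finite G]

/-- a sum over the group of a function supported on a subgroup -/
theorem sum_sub {X : Type} [AddCommGroup X] [Fintype G] {N : Subgroup G} [Fintype N] {f : G → X}
    (hf : ∀ g, g ∉ N → f g = 0) : ∑ g : G, f g = ∑ n : N, f n := by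
  symm
  refine Fintype.sum_of_injective (fun n : N => (n : G)) Subtype.val_injective _ _ ?_ fun n => rfl
  intro g hg
  apply hf
  intro h
  exact hg ⟨⟨g, h⟩, rfl⟩

theorem evV_mrep {n : ℕ} (σ : G →* Matrix (Fin n) (Fin n) F) (a : G → F) (v : Fin n → F) :
    evV (mrep σ) a v = (ev σ a).mulVec v := by
  have := Fintype.ofFinite G
  rw [D66.evV_apply]
  unfold ev
  rw [finsum_eq_sum_of_fintype, Matrix.sum_mulVec]
  refine Finset.sum_congr rfl fun g _ => ?_
  rw [Matrix.smul_mulVec, CY66.mrep_apply]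

/-- a relative trace in the group ring acts as a weighted sum of conjugates -/
theorem ev_prj {N P : Subgroup G} {m : ℕ} (κ : N →* Matrix (Fin m) (Fin m) F) {a c z : G → F}
    (hc : IsW N P c) (h : ∀ y, a y = ∑ᶠ g : G, c g * z (g⁻¹ * y * g)) :
    ∑ᶠ n : N, c n • (κ n * (ev κ fun t : N => z t) * κ n⁻¹) = ev κ fun t : N => a t := by
  classical
  have := Fintype.ofFinite G
  have := Fintype.ofFinite N
  unfold ev
  rw [finsum_eq_sum_of_fintype, finsum_eq_sum_of_fintype, finsum_eq_sum_of_fintype]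
  have h1 : ∀ n : N, c n • (κ n * (∑ t : N, z t • κ t) * κ n⁻¹) =
      ∑ y : N, (c n * z ((n : G)⁻¹ * y * n)) • κ y := by
    intro n
    rw [Finset.mul_sum, Finset.sum_mul, Finset.smul_sum]
    refine Fintype.sum_equiv (MulAut.conj n).toEquiv _ _ fun y => ?_
    have h2 : (n : G)⁻¹ * (((MulAut.conj n).toEquiv y : N) : G) * n = y := by
      change (n : G)⁻¹ * ((n : G) * y * (n : G)⁻¹) * n = y
      group
    have h3 : κ ((MulAut.conj n).toEquiv y) = κ n * κ y * κ n⁻¹ := by
      change κ (n * y * n⁻¹) = _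
      rw [map_mul, map_mul]
    rw [h2, h3, mul_smul, Matrix.mul_smul, Matrix.smul_mul]
  rw [Finset.sum_congr rfl fun n _ => h1 n, Finset.sum_comm]
  refine Finset.sum_congr rfl fun y _ => ?_
  rw [← Finset.sum_smul]
  congr 1
  change _ = a y
  rw [h, finsum_eq_sum_of_fintype, sum_sub (N := N)]
  intro g hg
  rw [hc.supp g hg, zero_mul]

/-- `a`, supported on `N`, acts on the image of an embedding of `κ` like `κ` -/
theorem evV_emb {N : Subgroup G} {m : ℕ} {κ : N →* Matrix (Fin m) (Fin m) F} {V : Type}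
    [AddCommGroup V] [Module F V] {ρ : Representation F G V} {ι : (Fin m → F) →ₗ[F] V}
    (hint : ∀ (n : N) (w : Fin m → F), ι ((κ n).mulVec w) = ρ n (ι w)) {a : G → F}
    (ha : ∀ x, x ∉ N → a x = 0) (w : Fin m → F) :
    evV ρ a (ι w) = ι ((ev κ fun t : N => a t).mulVec w) := by
  have := Fintype.ofFinite G
  have := Fintype.ofFinite N
  rw [D66.evV_apply, sum_sub (N := N)]
  · unfold ev
    rw [finsum_eq_sum_of_fintype, Matrix.sum_mulVec, map_sum]
    refine Finset.sum_congr rfl fun n _ => ?_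
    rw [Matrix.smul_mulVec, map_smul, hint]
  · intro g hg
    rw [ha g hg, zero_smul]

/-- SUD for the normaliser itself -/
theorem sud_L (hebv : EbvStmt) (hkey : KeyStmt) (heig : EigStmt) {ℓ : ℕ} [Fact ℓ.Prime]
    (hF : GoodF ℓ F) {P : Subgroup G} {b : G → F} (hD : D1S ℓ (⊤ : Subgroup G) P b) {m : ℕ}
    (κ : Subgroup.normalizer (P : Set G) →* Matrix (Fin m) (Fin m) F) (hκ : IsIrr κ)
    (hb : ev κ (fun t : Subgroup.normalizer (P : Set G) => br P b t) = 1) :
    ∃ (n : ℕ) (σ : G →* Matrix (Fin n) (Fin n) F) (ι : (Fin m → F) →ₗ[F] (Fin n → F)),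
      IsIrr σ ∧ ev σ b = 1 ∧ EmbN P (Subgroup.normalizer (P : Set G)) κ (mrep σ) ι ∧
      (∀ w, ι w ∈ fixV (mrep σ) P) ∧
      fixV (mrep σ) P ≤ LinearMap.range ι ⊔ nrmV (mrep σ) P := by
  classical
  have : IsAlgClosed F := hF.closed
  have hch : CharP F ℓ := hF.char
  have hPL : P ≤ Subgroup.normalizer (P : Set G) := Subgroup.le_normalizer
  have hnorm : (P.subgroupOf (Subgroup.normalizer (P : Set G))).Normal :=
    (Subgroup.normal_subgroupOf_iff_le_normalizer hPL).2 le_rfl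
  have hp : IsPGroup ℓ (P.subgroupOf (Subgroup.normalizer (P : Set G))) :=
    (D66.isP hD.card).comap_of_injective (Subgroup.normalizer (P : Set G)).subtype
      Subtype.val_injective
  have hκP : ∀ n : Subgroup.normalizer (P : Set G), (n : G) ∈ P → κ n = 1 := fun n hn =>
    H20.nls_triv hF.prime hF.char _ hnorm hp κ hκ n (Subgroup.mem_subgroupOf.2 hn)
  have hcard : (Nat.card P : F) = 0 := by
    rw [hD.card, CharP.cast_eq_zero_iff F ℓ]
  obtain ⟨c, z, hc, hz, -, hz2⟩ := hD.prj1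
  rw [top_inf_eq] at hc
  have hφ := ev_prj κ hc hz2
  rw [hb] at hφ
  obtain ⟨V, _, _, _, ρ, ι₀, hι₀⟩ := H55.exists_ind (κ := κ) hκP hPL hcard hκ.1
  obtain ⟨n, σ, ι, hσ, hι⟩ := exists_simple_w hPL le_rfl hκP hc hφ _ V ρ ι₀ hι₀ rfl
  have hfix : ∀ w, ι w ∈ fixV (mrep σ) P := by
    intro w p hp
    have h1 := hι.int ⟨p, hPL hp⟩ w
    rw [hκP _ hp, Matrix.one_mulVec] at h1
    exact h1.symm
  -- `b` acts as the identity
  have hσb : ev σ b = 1 := by
    obtain ⟨w, h1, -, h2⟩ := heig F G n σ hσ b hD.idem.1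
    rcases h2 hD.idem with h3 | h3
    · exfalso
      obtain ⟨u, hu⟩ := hι.nt
      apply hu
      have h4 := hebv ℓ F G P hD.card (Fin n → F) (mrep σ) b (fun p _ x => hD.idem.1 x p) (ι u)
        (hfix u)
      have h5 : ∀ x, x ∉ Subgroup.normalizer (P : Set G) → br P b x = 0 := by
        intro x hx
        apply D66.br_supp hD.supp
        rwa [top_inf_eq]
      rw [evV_mrep, h1, h3, map_zero, Matrix.zero_mulVec, evV_emb hι.int h5, hb,
        Matrix.one_mulVec, zero_sub] at h4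
      exact neg_mem_iff.1 h4
    · rw [h1, h3, map_one]
  refine ⟨n, σ, ι, hσ, hσb, hι, hfix, ?_⟩
  have hstb : Stb (Subgroup.normalizer (P : Set G)) (mrep σ)
      (LinearMap.range ι ⊔ nrmV (mrep σ) P) := by
    apply D1.H71.stb_sup
    · rintro g hg _ ⟨w, rfl⟩
      exact ⟨(κ ⟨g, hg⟩).mulVec w, hι.int ⟨g, hg⟩ w⟩
    · exact D66.stb_nrm _ le_rfl
  have hlt : nrmV (mrep σ) P < LinearMap.range ι ⊔ nrmV (mrep σ) P := by
    refine lt_of_le_of_ne le_sup_right fun h => ?_
    obtain ⟨u, hu⟩ := hι.nt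
    apply hu
    rw [h]
    exact Submodule.mem_sup_left ⟨u, rfl⟩
  have hle : LinearMap.range ι ⊔ nrmV (mrep σ) P ≤ fixV (mrep σ) P := by
    refine sup_le ?_ (D66.nrm_le_fix _ _)
    rintro _ ⟨w, rfl⟩
    exact hfix w
  have htop : (⊤ : Subgroup G).Normal := inferInstance
  obtain ⟨Z, hZ0, hZs, hZ⟩ := hkey ℓ F hF G ⊤ P b hD (Fin n → F) (mrep σ)
    (fun v => by rw [evV_mrep, hσb, Matrix.one_mulVec]) (D1.H71.nsoc_irr htop hσ)
    (LinearMap.range ι ⊔ nrmV (mrep σ) P) hlt hle hstb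
  rw [D1.H71.top_of_stb hσ hZs hZ0, top_inf_eq] at hZ
  exact hZ

/-- SUD. -/
theorem sud (hebv : EbvStmt) (hkey : KeyStmt) (heig : EigStmt) : SudStmt := by
  classical
  intro ℓ _ F _ hF G _ _ P b hD A _ _ j hj hr m κ hκ hb
  have := Fintype.ofFinite A
  let e : A ≃* Subgroup.normalizer (P : Set G) :=
    (MonoidHom.ofInjective hj).trans (MulEquiv.subgroupCongr hr)
  have he : ∀ x, ((e x : Subgroup.normalizer (P : Set G)) : G) = j x := fun x => rfl
  let κ' : Subgroup.normalizer (P : Set G) →* Matrix (Fin m) (Fin m) F :=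
    κ.comp e.symm.toMonoidHom
  have hκe : ∀ x, κ' (e x) = κ x := by
    intro x
    change κ (e.symm (e x)) = κ x
    rw [MulEquiv.symm_apply_apply]
  have hκ' : IsIrr κ' := by
    refine ⟨hκ.1, ?_⟩
    have h1 : Set.range κ' = Set.range κ := by
      apply Set.Subset.antisymm
      · rintro _ ⟨t, rfl⟩
        exact ⟨e.symm t, rfl⟩
      · rintro _ ⟨x, rfl⟩
        exact ⟨e x, hκe x⟩
    rw [h1]
    exact hκ.2
  have hb' : ev κ' (fun t : Subgroup.normalizer (P : Set G) => br P b t) = 1 := by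
    have := Fintype.ofFinite (Subgroup.normalizer (P : Set G))
    rw [← hb]
    unfold ev
    rw [finsum_eq_sum_of_fintype, finsum_eq_sum_of_fintype]
    symm
    refine Fintype.sum_equiv e.toEquiv _ _ fun x => ?_
    change br P b (j x) • κ x = br P b (e x : Subgroup.normalizer (P : Set G)) • κ' (e x)
    rw [he, hκe]
  obtain ⟨n, σ, ι, hσ, hσb, hι, hfix, hle⟩ := sud_L hebv hkey heig hF hD κ' hκ' hb'
  have hinj : LinearMap.ker ((nrmV (mrep σ) P).mkQ ∘ₗ ι) = ⊥ := by
    rw [LinearMap.ker_eq_bot']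
    intro w hw
    rw [LinearMap.comp_apply, Submodule.mkQ_apply, Submodule.Quotient.mk_eq_zero] at hw
    exact CY66.emb_inj le_rfl hκ' hι hw
  obtain ⟨q, hq⟩ := LinearMap.exists_leftInverse_of_injective _ hinj
  have hπι : ∀ w, q ((nrmV (mrep σ) P).mkQ (ι w)) = w := fun w => LinearMap.congr_fun hq w
  have hπ0 : ∀ v ∈ nrmV (mrep σ) P, q ((nrmV (mrep σ) P).mkQ v) = 0 := by
    intro v hv
    rw [Submodule.mkQ_apply, (Submodule.Quotient.mk_eq_zero _).2 hv, map_zero]
  refine ⟨n, σ, q ∘ₗ (nrmV (mrep σ) P).mkQ, hσ, hσb, ?_, ?_, ?_⟩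
  · intro x v hv
    obtain ⟨_, ⟨w, rfl⟩, c, hc, rfl⟩ := Submodule.mem_sup.1 (hle hv)
    rw [map_add, ← he, ← hι.int, hκe, LinearMap.comp_apply, LinearMap.comp_apply, map_add, map_add,
      map_add, map_add, hπι, hπι, hπ0 c hc, hπ0 _ (CY66.nrm_stable _ (e x).2 hc), add_zero,
      add_zero]
  · intro v hv
    obtain ⟨_, ⟨w, rfl⟩, c, hc, rfl⟩ := Submodule.mem_sup.1 (hle hv)
    constructor
    · intro h
      rw [LinearMap.comp_apply, map_add, map_add, hπι, hπ0 c hc, add_zero] at h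
      rw [h, map_zero, zero_add]
      exact hc
    · intro h
      rw [LinearMap.comp_apply]
      exact hπ0 _ h
  · intro w
    exact ⟨ι w, hfix w, hπι w⟩

end main

end Pool.Agent.PP.D1.H67
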